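import Mathlib

set_option autoImplicit false

/-!
The maximum number of arcs of a minimal strongly biconnected digraph on `n ≥ 3` vertices is
`2 n - 3`. The proof builds a spanning strongly biconnected subdigraph by open directed ears.
-/

namespace Pool.Agent.Results.MP_5e4462_co.ArcBound

open Finset Relation

set_option linter.unusedSectionVars false

variable {V : Type*} [Fintype V] [DecidableEq V]

/-- The digraph with arc set `E` is strongly connected. -/
def StronglyConnected (E : Finset (V × V)) : Prop :=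
  ∀ u v, ReflTransGen (fun a b => (a, b) ∈ E) u v

/-- The underlying undirected graph of the digraph with arc set `E`. -/
def underlying (E : Finset (V × V)) : SimpleGraph V where
  Adj a b := a ≠ b ∧ ((a, b) ∈ E ∨ (b, a) ∈ E)
  symm := ⟨fun _ _ h => ⟨h.1.symm, h.2.symm⟩⟩
  loopless := ⟨fun _ h => h.1 rfl⟩

/-- Strongly biconnected: strongly connected, and deleting any vertex leaves the underlying graph
connected (or empty), i.e. it has no articulation point. -/
def StronglyBiconnected (E : Finset (V × V)) : Prop :=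
  StronglyConnected E ∧ ∀ x : V, ((underlying E).induce {x}ᶜ).Preconnected

/-- Minimal strongly biconnected: no arc can be deleted. -/
def MinimalStronglyBiconnected (E : Finset (V × V)) : Prop :=
  StronglyBiconnected E ∧ ∀ e ∈ E, ¬ StronglyBiconnected (E.erase e)

/-! ### Cuts -/

theorem sc_of_cuts {E : Finset (V × V)}
    (h : ∀ X : Set V, (∃ a, a ∈ X) → (∃ b, b ∉ X) → ∃ a b, a ∈ X ∧ b ∉ X ∧ (a, b) ∈ E) :
    StronglyConnected E := by
  intro u v
  by_contra hv
  obtain ⟨a, b, ha, hb, hab⟩ := h {w | ReflTransGen (fun a b => (a, b) ∈ E) u w}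
    ⟨u, ReflTransGen.refl⟩ ⟨v, hv⟩
  exact hb (ReflTransGen.tail ha hab)

theorem bi_of_cuts {E : Finset (V × V)} (hl : ∀ v, (v, v) ∉ E) (x : V)
    (h : ∀ X : Set V, (∃ a, a ≠ x ∧ a ∈ X) → (∃ b, b ≠ x ∧ b ∉ X) →
      ∃ a b, a ≠ x ∧ b ≠ x ∧ a ∈ X ∧ b ∉ X ∧ ((a, b) ∈ E ∨ (b, a) ∈ E)) :
    ((underlying E).induce {x}ᶜ).Preconnected := by
  intro u v
  by_contra hv
  obtain ⟨a, b, hax, hbx, ha, hb, hab⟩ := h {w | ∃ hw : w ∈ ({x}ᶜ : Set V),
      ((underlying E).induce {x}ᶜ).Reachable u ⟨w, hw⟩}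
    ⟨u, u.2, u.2, SimpleGraph.Reachable.refl _⟩ ⟨v, v.2, fun ⟨_, h⟩ => hv h⟩
  obtain ⟨hw, hr⟩ := ha
  apply hb
  refine ⟨hbx, hr.trans (SimpleGraph.Adj.reachable ?_)⟩
  show (underlying E).Adj a b
  refine ⟨?_, hab⟩
  intro he
  subst he
  rcases hab with h | h
  · exact hl _ h
  · exact hl _ h

theorem cuts_of_bi {E : Finset (V × V)} (x : V) (h : ((underlying E).induce {x}ᶜ).Preconnected)
    (X : Set V) (ha : ∃ a, a ≠ x ∧ a ∈ X) (hb : ∃ b, b ≠ x ∧ b ∉ X) :
    ∃ a b, a ≠ x ∧ b ≠ x ∧ a ∈ X ∧ b ∉ X ∧ ((a, b) ∈ E ∨ (b, a) ∈ E) := by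
  obtain ⟨a, hax, haX⟩ := ha
  obtain ⟨b, hbx, hbX⟩ := hb
  by_contra hno
  have h1 := h ⟨a, hax⟩ ⟨b, hbx⟩
  rw [SimpleGraph.reachable_iff_reflTransGen] at h1
  have key : ∀ w : ({x}ᶜ : Set V), ReflTransGen ((underlying E).induce {x}ᶜ).Adj ⟨a, hax⟩ w →
      (w : V) ∈ X := by
    intro w hw
    induction hw with
    | refl => exact haX
    | @tail c d _ hcd ih =>
      by_contra hd
      apply hno
      have h2 : (underlying E).Adj c d := hcd
      exact ⟨c, d, c.2, d.2, ih, hd, h2.2⟩
  exact hbX (key _ h1)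

/-! ### Partial solutions -/

/-- `H` is a set of arcs making the vertex set `S` strongly biconnected, with few arcs. -/
structure Good (c : ℕ) (E H : Finset (V × V)) (S : Finset V) : Prop where
  sub : H ⊆ E
  nonempty : S.Nonempty
  strong : ∀ X : Set V, (∃ a ∈ S, a ∈ X) → (∃ b ∈ S, b ∉ X) →
    ∃ a ∈ S, ∃ b ∈ S, a ∈ X ∧ b ∉ X ∧ (a, b) ∈ H
  bi : ∀ (x : V) (X : Set V), (∃ a ∈ S, a ≠ x ∧ a ∈ X) → (∃ b ∈ S, b ≠ x ∧ b ∉ X) →
    ∃ a ∈ S, ∃ b ∈ S, a ≠ x ∧ b ≠ x ∧ a ∈ X ∧ b ∉ X ∧ ((a, b) ∈ H ∨ (b, a) ∈ H)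
  card : H.card + c ≤ 2 * S.card

/-- A directed ear of `S` with `k` inner vertices `p 1, ..., p k`; it is open unless `S` is a
single vertex. -/
structure Ear (E : Finset (V × V)) (S : Finset V) (k : ℕ) (p : ℕ → V) : Prop where
  pos : 1 ≤ k
  start : p 0 ∈ S
  fin : p (k + 1) ∈ S
  out : ∀ i, 1 ≤ i → i ≤ k → p i ∉ S
  arc : ∀ i, i ≤ k → (p i, p (i + 1)) ∈ E
  opn : p 0 ≠ p (k + 1) ∨ S = {p 0}

theorem exists_switch (P : ℕ → Prop) {a b : ℕ} (hab : a ≤ b) (ha : P a) (hb : ¬ P b) :
    ∃ i, a ≤ i ∧ i < b ∧ P i ∧ ¬ P (i + 1) := by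
  induction b, hab using Nat.le_induction with
  | base => exact absurd ha hb
  | succ b hab ih =>
    by_cases h : P b
    · exact ⟨b, hab, Nat.lt_succ_self b, h, hb⟩
    · obtain ⟨i, h1, h2, h3, h4⟩ := ih h
      exact ⟨i, h1, by omega, h3, h4⟩

/-- the case of the biconnectivity proof where all old vertices except `x` lie in `X` -/
theorem bi_aux {E : Finset (V × V)} {S : Finset V} {k : ℕ} {p : ℕ → V} (hp : Ear E S k p)
    (hinj : ∀ i j, 1 ≤ i → i < j → j ≤ k → p i ≠ p j) (x : V) (X : Set V)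
    (hS : ∀ s ∈ S, s ≠ x → s ∈ X)
    (ha : ∃ a, (a ∈ S ∨ ∃ i, 1 ≤ i ∧ i ≤ k ∧ p i = a) ∧ a ≠ x ∧ a ∈ X)
    (hb : ∃ b, (b ∈ S ∨ ∃ i, 1 ≤ i ∧ i ≤ k ∧ p i = b) ∧ b ≠ x ∧ b ∉ X) :
    ∃ i, i ≤ k ∧ p i ≠ x ∧ p (i + 1) ≠ x ∧
      ((p i ∈ X ∧ p (i + 1) ∉ X) ∨ (p i ∉ X ∧ p (i + 1) ∈ X)) := by
  obtain ⟨b, hb1, hbx, hbX⟩ := hb
  obtain ⟨i, hi1, hik, rfl⟩ : ∃ i, 1 ≤ i ∧ i ≤ k ∧ p i = b := by
    rcases hb1 with h | h
    · exact absurd (hS b h hbx) hbX
    · exact h
  -- switching between two positions without `x` in between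
  have sw : ∀ a b, a ≤ b → b ≤ k + 1 → (∀ j, a ≤ j → j ≤ b → p j ≠ x) →
      ((p a ∈ X ∧ p b ∉ X) ∨ (p a ∉ X ∧ p b ∈ X)) →
      ∃ i, i ≤ k ∧ p i ≠ x ∧ p (i + 1) ≠ x ∧
      ((p i ∈ X ∧ p (i + 1) ∉ X) ∨ (p i ∉ X ∧ p (i + 1) ∈ X)) := by
    intro a b hab hbk hx h
    rcases h with ⟨h1, h2⟩ | ⟨h1, h2⟩
    · obtain ⟨j, e1, e2, e3, e4⟩ := exists_switch (fun j => p j ∈ X) hab h1 h2
      exact ⟨j, by omega, hx j e1 (by omega), hx (j + 1) (by omega) (by omega), Or.inl ⟨e3, e4⟩⟩
    · obtain ⟨j, e1, e2, e3, e4⟩ := exists_switch (fun j => p j ∉ X) hab h1 (by simpa using h2)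
      exact ⟨j, by omega, hx j e1 (by omega), hx (j + 1) (by omega) (by omega),
        Or.inr ⟨e3, by simpa using e4⟩⟩
  by_cases hxp : ∃ j, 1 ≤ j ∧ j ≤ k ∧ p j = x
  · obtain ⟨j, hj1, hjk, rfl⟩ := hxp
    have h0 : p 0 ≠ p j := fun h => hp.out j hj1 hjk (h ▸ hp.start)
    have hk : p (k + 1) ≠ p j := fun h => hp.out j hj1 hjk (h ▸ hp.fin)
    have hij : i ≠ j := fun h => hbx (by rw [h])
    rcases lt_or_gt_of_ne hij with hlt | hlt
    · apply sw 0 i (by omega) (by omega)
      · intro l _ hl2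
        by_cases hl0 : l = 0
        · rw [hl0]; exact h0
        · exact hinj l j (by omega) (by omega) hjk
      · exact Or.inl ⟨hS _ hp.start h0, hbX⟩
    · apply sw i (k + 1) (by omega) (by omega)
      · intro l hl1 hl2
        by_cases hl0 : l = k + 1
        · rw [hl0]; exact hk
        · exact (hinj j l hj1 (by omega) (by omega)).symm
      · exact Or.inr ⟨hbX, hS _ hp.fin hk⟩
  · have hxp' : ∀ j, 1 ≤ j → j ≤ k → p j ≠ x := fun j h1 h2 h3 => hxp ⟨j, h1, h2, h3⟩
    by_cases h0 : p 0 = x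
    · by_cases hk : p (k + 1) = x
      · -- `S` is a single vertex
        have hSx : S = {p 0} := by
          rcases hp.opn with h | h
          · exact absurd (h0.trans hk.symm) h
          · exact h
        obtain ⟨a, ha1, hax, haX⟩ := ha
        obtain ⟨l, hl1, hlk, rfl⟩ : ∃ i, 1 ≤ i ∧ i ≤ k ∧ p i = a := by
          rcases ha1 with h | h
          · rw [hSx, Finset.mem_singleton, h0] at h
            exact absurd h hax
          · exact h
        rcases le_total l i with hle | hle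
        · exact sw l i hle (by omega) (fun j h1 h2 => hxp' j (by omega) (by omega)) (Or.inl ⟨haX, hbX⟩)
        · exact sw i l hle (by omega) (fun j h1 h2 => hxp' j (by omega) (by omega)) (Or.inr ⟨hbX, haX⟩)
      · apply sw i (k + 1) (by omega) (by omega)
        · intro l hl1 hl2
          by_cases hl0 : l = k + 1
          · rw [hl0]; exact hk
          · exact hxp' l (by omega) (by omega)
        · exact Or.inr ⟨hbX, hS _ hp.fin hk⟩
    · apply sw 0 i (by omega) (by omega)
      · intro l _ hl2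
        by_cases hl0 : l = 0
        · rw [hl0]; exact h0
        · exact hxp' l (by omega) (by omega)
      · exact Or.inl ⟨hS _ hp.start h0, hbX⟩

/-- adding an ear -/
theorem add_ear {c c' : ℕ} {E H : Finset (V × V)} {S : Finset V} (hg : Good c E H S) {k : ℕ} {p : ℕ → V}
    (hp : Ear E S k p) (hinj : ∀ i j, 1 ≤ i → i < j → j ≤ k → p i ≠ p j) (hc : c' + 1 ≤ c + k) :
    Good c' E (H ∪ (range (k + 1)).image (fun i => (p i, p (i + 1)))) (S ∪ (Icc 1 k).image p) := by
  have hmemS : ∀ a, a ∈ S ∪ (Icc 1 k).image p ↔ (a ∈ S ∨ ∃ i, 1 ≤ i ∧ i ≤ k ∧ p i = a) := by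
    intro a
    rw [mem_union, mem_image]
    constructor
    · rintro (h | ⟨i, hi, h⟩)
      · exact Or.inl h
      · rw [mem_Icc] at hi; exact Or.inr ⟨i, hi.1, hi.2, h⟩
    · rintro (h | ⟨i, h1, h2, h⟩)
      · exact Or.inl h
      · exact Or.inr ⟨i, mem_Icc.2 ⟨h1, h2⟩, h⟩
  have hpS : ∀ i, i ≤ k + 1 → p i ∈ S ∪ (Icc 1 k).image p := by
    intro i hi
    rw [hmemS]
    by_cases h0 : i = 0
    · rw [h0]; exact Or.inl hp.start
    · by_cases hk : i = k + 1
      · rw [hk]; exact Or.inl hp.fin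
      · exact Or.inr ⟨i, by omega, by omega, rfl⟩
  have hpH : ∀ i, i ≤ k → (p i, p (i + 1)) ∈ H ∪ (range (k + 1)).image (fun i => (p i, p (i + 1))) := by
    intro i hi
    rw [mem_union]
    exact Or.inr (mem_image.2 ⟨i, mem_range.2 (by omega), rfl⟩)
  constructor
  · intro e he
    rw [mem_union, mem_image] at he
    rcases he with he | ⟨i, hi, rfl⟩
    · exact hg.sub he
    · exact hp.arc i (by rw [mem_range] at hi; omega)
  · exact hg.nonempty.mono subset_union_left
  · intro X hX hY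
    by_cases h1 : ∃ a ∈ S, a ∈ X
    · by_cases h2 : ∃ b ∈ S, b ∉ X
      · obtain ⟨a, ha, b, hb, h3, h4, h5⟩ := hg.strong X h1 h2
        exact ⟨a, mem_union_left _ ha, b, mem_union_left _ hb, h3, h4, mem_union_left _ h5⟩
      · push Not at h2
        obtain ⟨b, hb, hbX⟩ := hY
        rw [hmemS] at hb
        rcases hb with hb | ⟨i, hi1, hik, rfl⟩
        · exact absurd (h2 b hb) hbX
        · obtain ⟨j, _, e2, e3, e4⟩ := exists_switch (fun j => p j ∈ X) (Nat.zero_le i) (h2 _ hp.start) hbX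
          exact ⟨p j, hpS j (by omega), p (j + 1), hpS _ (by omega), e3, e4, hpH j (by omega)⟩
    · push Not at h1
      obtain ⟨a, ha, haX⟩ := hX
      rw [hmemS] at ha
      rcases ha with ha | ⟨i, hi1, hik, rfl⟩
      · exact absurd haX (h1 a ha)
      · obtain ⟨j, e1, e2, e3, e4⟩ := exists_switch (fun j => p j ∈ X) (show i ≤ k + 1 by omega) haX
          (h1 _ hp.fin)
        exact ⟨p j, hpS j (by omega), p (j + 1), hpS _ (by omega), e3, e4, hpH j (by omega)⟩
  · intro x X hX hY
    have hX' : ∃ a, (a ∈ S ∨ ∃ i, 1 ≤ i ∧ i ≤ k ∧ p i = a) ∧ a ≠ x ∧ a ∈ X := by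
      obtain ⟨a, ha, h⟩ := hX
      exact ⟨a, (hmemS a).1 ha, h⟩
    have hY' : ∃ a, (a ∈ S ∨ ∃ i, 1 ≤ i ∧ i ≤ k ∧ p i = a) ∧ a ≠ x ∧ a ∉ X := by
      obtain ⟨a, ha, h⟩ := hY
      exact ⟨a, (hmemS a).1 ha, h⟩
    by_cases h1 : ∃ a ∈ S, a ≠ x ∧ a ∈ X
    · by_cases h2 : ∃ b ∈ S, b ≠ x ∧ b ∉ X
      · obtain ⟨a, ha, b, hb, e1, e2, e3, e4, e5⟩ := hg.bi x X h1 h2
        refine ⟨a, mem_union_left _ ha, b, mem_union_left _ hb, e1, e2, e3, e4, ?_⟩
        exact e5.imp (fun h => mem_union_left _ h) (fun h => mem_union_left _ h)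
      · push Not at h2
        obtain ⟨i, hi, e1, e2, e3⟩ := bi_aux hp hinj x X h2 hX' hY'
        rcases e3 with ⟨e3, e4⟩ | ⟨e3, e4⟩
        · exact ⟨p i, hpS i (by omega), p (i + 1), hpS _ (by omega), e1, e2, e3, e4, Or.inl (hpH i hi)⟩
        · exact ⟨p (i + 1), hpS _ (by omega), p i, hpS i (by omega), e2, e1, e4, e3, Or.inr (hpH i hi)⟩
    · push Not at h1
      obtain ⟨i, hi, e1, e2, e3⟩ := bi_aux hp hinj x Xᶜ (fun s hs hsx => h1 s hs hsx) hY'
        (by
          obtain ⟨a, ha, hax, haX⟩ := hX'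
          exact ⟨a, ha, hax, fun h => h haX⟩)
      rcases e3 with ⟨e3, e4⟩ | ⟨e3, e4⟩
      · have e4' : p (i + 1) ∈ X := by simpa using e4
        exact ⟨p (i + 1), hpS _ (by omega), p i, hpS i (by omega), e2, e1, e4', e3, Or.inr (hpH i hi)⟩
      · have e3' : p i ∈ X := by simpa using e3
        exact ⟨p i, hpS i (by omega), p (i + 1), hpS _ (by omega), e1, e2, e3', e4, Or.inl (hpH i hi)⟩
  · have h1 : (H ∪ (range (k + 1)).image (fun i => (p i, p (i + 1)))).card ≤ H.card + (k + 1) := by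
      refine (card_union_le _ _).trans ?_
      have := card_image_le (s := range (k + 1)) (f := fun i => (p i, p (i + 1)))
      rw [card_range] at this
      omega
    have h2 : (S ∪ (Icc 1 k).image p).card = S.card + k := by
      rw [card_union_of_disjoint, card_image_of_injOn]
      · rw [Nat.card_Icc]; omega
      · intro i hi j hj hij
        rw [coe_Icc, Set.mem_Icc] at hi hj
        by_contra hne
        rcases lt_or_gt_of_ne hne with h | h
        · exact hinj i j hi.1 h hj.2 hij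
        · exact hinj j i hj.1 h hi.2 hij.symm
      · rw [disjoint_left]
        intro a ha ha2
        rw [mem_image] at ha2
        obtain ⟨i, hi, rfl⟩ := ha2
        rw [mem_Icc] at hi
        exact hp.out i hi.1 hi.2 ha
    have h3 := hg.card
    have h4 := hp.pos
    omega

/-! ### Existence of ears -/

theorem path_of_reach {E : Finset (V × V)} {S : Finset V} {w w' : V} (hw : w ∉ S)
    (h : ReflTransGen (fun a b => a ∉ S ∧ b ∉ S ∧ (a, b) ∈ E) w w') :
    ∃ (m : ℕ) (q : ℕ → V), q 0 = w ∧ q m = w' ∧ (∀ i, i ≤ m → q i ∉ S) ∧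
      ∀ i, i < m → (q i, q (i + 1)) ∈ E := by
  induction h with
  | refl => exact ⟨0, fun _ => w, rfl, rfl, fun _ _ => hw, fun i hi => absurd hi (Nat.not_lt_zero i)⟩
  | @tail b c _ hbc ih =>
    obtain ⟨m, q, h0, hm, h1, h2⟩ := ih
    refine ⟨m + 1, fun i => if i = m + 1 then c else q i, ?_, ?_, ?_, ?_⟩
    · simp [h0]
    · simp
    · intro i hi
      by_cases h : i = m + 1
      · simp only [h, if_true]; exact hbc.2.1
      · simp only [h, if_false]; exact h1 i (by omega)
    · intro i hi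
      by_cases h : i = m
      · subst h
        have e : i ≠ i + 1 := by omega
        simp only [if_true, e, if_false]
        rw [hm]
        exact hbc.2.2
      · have e1 : i ≠ m + 1 := by omega
        have e2 : i + 1 ≠ m + 1 := by omega
        simp only [e1, e2, if_false]
        exact h2 i (by omega)

theorem exists_ear {E : Finset (V × V)} (hE : StronglyBiconnected E) {S : Finset V} (hS : S.Nonempty)
    (hne : ∃ v, v ∉ S) : ∃ k p, Ear E S k p := by
  classical
  by_contra hno
  obtain ⟨s0, hs0⟩ := hS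
  set R : V → V → Prop := fun a b => a ∉ S ∧ b ∉ S ∧ (a, b) ∈ E with hR
  let Out : V → V → Prop := fun h v => ∃ w, w ∉ S ∧ (h, w) ∈ E ∧ ReflTransGen R w v
  let In : V → V → Prop := fun h v => ∃ w, w ∉ S ∧ (w, h) ∈ E ∧ ReflTransGen R v w
  have hOut : ∀ v, v ∉ S → ∃ h ∈ S, Out h v := by
    intro v hv
    have key : ∀ w, ReflTransGen (fun a b => (a, b) ∈ E) s0 w → w ∉ S → ∃ h ∈ S, Out h w := by
      intro w hw
      induction hw with
      | refl => intro h; exact absurd hs0 h
      | @tail b c _ hbc ih =>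
        intro hc
        by_cases hb : b ∈ S
        · exact ⟨b, hb, c, hc, hbc, ReflTransGen.refl⟩
        · obtain ⟨h, hh, w, hw1, hw2, hw3⟩ := ih hb
          exact ⟨h, hh, w, hw1, hw2, hw3.tail ⟨hb, hc, hbc⟩⟩
    exact key v (hE.1 s0 v) hv
  have hIn : ∀ v, v ∉ S → ∃ h ∈ S, In h v := by
    intro v hv
    have key : ∀ w, ReflTransGen (fun a b => (a, b) ∈ E) w s0 → w ∉ S → ∃ h ∈ S, In h w := by
      intro w hw
      induction hw using ReflTransGen.head_induction_on with
      | refl => intro h; exact absurd hs0 h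
      | @head a c hac _ ih =>
        intro ha
        by_cases hc : c ∈ S
        · exact ⟨c, hc, a, ha, hac, ReflTransGen.refl⟩
        · obtain ⟨h, hh, w, hw1, hw2, hw3⟩ := ih hc
          exact ⟨h, hh, w, hw1, hw2, ReflTransGen.head ⟨ha, hc, hac⟩ hw3⟩
    exact key v (hE.1 v s0) hv
  -- no ear
  have huniq : ∀ v h h', h ∈ S → h' ∈ S → Out h v → In h' v → h = h' ∧ S ≠ {h} := by
    intro v h h' hh hh' ⟨w, hw1, hw2, hw3⟩ ⟨w', hw1', hw2', hw3'⟩
    by_contra hc
    apply hno
    obtain ⟨m, q, q0, qm, q1, q2⟩ := path_of_reach hw1 (hw3.trans hw3')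
    refine ⟨m + 1, fun i => if i = 0 then h else if i ≤ m + 1 then q (i - 1) else h', ?_⟩
    constructor
    · omega
    · simpa using hh
    · have e1 : m + 1 + 1 ≠ 0 := by omega
      have e2 : ¬ (m + 1 + 1 ≤ m + 1) := by omega
      simp only [e1, e2, if_false]
      exact hh'
    · intro i hi1 hi2
      have e1 : i ≠ 0 := by omega
      simp only [e1, if_false, hi2, if_true]
      exact q1 _ (by omega)
    · intro i hi
      by_cases h0 : i = 0
      · subst h0
        have e1 : (0 : ℕ) + 1 ≤ m + 1 := by omega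
        simp only [if_true, e1, Nat.zero_add, Nat.sub_self, one_ne_zero, if_false, q0]
        exact hw2
      · by_cases him : i = m + 1
        · subst him
          have e1 : m + 1 + 1 ≠ 0 := by omega
          have e2 : ¬ (m + 1 + 1 ≤ m + 1) := by omega
          simp only [h0, e1, e2, if_false, le_refl, if_true, Nat.add_sub_cancel, qm]
          exact hw2'
        · have e1 : i + 1 ≠ 0 := by omega
          have e2 : i + 1 ≤ m + 1 := by omega
          simp only [h0, e1, if_false, hi, e2, if_true, Nat.add_sub_cancel]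
          have := q2 (i - 1) (by omega)
          rwa [Nat.sub_add_cancel (by omega)] at this
    · have e1 : m + 1 + 1 ≠ 0 := by omega
      have e2 : ¬ (m + 1 + 1 ≤ m + 1) := by omega
      simp only [e1, e2, if_false, if_true]
      by_cases hhh : h = h'
      · right
        by_contra hS'
        exact hc ⟨hhh, hS'⟩
      · exact Or.inl hhh
  obtain ⟨v0, hv0⟩ := hne
  obtain ⟨x, hxS, hx⟩ := hOut v0 hv0
  obtain ⟨x', hxS', hx'⟩ := hIn v0 hv0
  have hSx := (huniq v0 x x' hxS hxS' hx hx').2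
  obtain ⟨s, hsS, hsx⟩ : ∃ s ∈ S, s ≠ x := by
    by_contra hc
    push Not at hc
    apply hSx
    ext a
    rw [mem_singleton]
    exact ⟨hc a, fun h => h ▸ hxS⟩
  have hInX : ∀ v, v ∉ S → Out x v → In x v := by
    intro v hv ho
    obtain ⟨h', hh', hi⟩ := hIn v hv
    have := (huniq v x h' hxS hh' ho hi).1
    rw [this]; exact hi
  obtain ⟨a, b, hax, hbx, ha, hb, hab⟩ := cuts_of_bi x (hE.2 x) {v | v ∉ S ∧ Out x v}
    ⟨v0, fun h => hv0 (h ▸ hxS), hv0, hx⟩ ⟨s, hsx, fun h => h.1 hsS⟩
  have hIna := hInX a ha.1 ha.2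
  by_cases hbS : b ∈ S
  · rcases hab with hab | hab
    · have := (huniq a x b hxS hbS ha.2 ⟨a, ha.1, hab, ReflTransGen.refl⟩).1
      exact hbx this.symm
    · have := (huniq a b x hbS hxS ⟨a, ha.1, hab, ReflTransGen.refl⟩ hIna).1
      exact hbx this
  · apply hb
    refine ⟨hbS, ?_⟩
    rcases hab with hab | hab
    · obtain ⟨w, hw1, hw2, hw3⟩ := ha.2
      exact ⟨w, hw1, hw2, hw3.tail ⟨ha.1, hbS, hab⟩⟩
    · obtain ⟨w, hw1, hw2, hw3⟩ := hIna
      have hInb : In x b := ⟨w, hw1, hw2, ReflTransGen.head ⟨hbS, ha.1, hab⟩ hw3⟩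
      obtain ⟨h', hh', ho⟩ := hOut b hbS
      have := (huniq b h' x hh' hxS ho hInb).1
      rw [← this]; exact ho

theorem exists_inj_ear {E : Finset (V × V)} (hE : StronglyBiconnected E) {S : Finset V}
    (hS : S.Nonempty) (hne : ∃ v, v ∉ S) :
    ∃ k p, Ear E S k p ∧ ∀ i j, 1 ≤ i → i < j → j ≤ k → p i ≠ p j := by
  classical
  have hex : ∃ k, ∃ p, Ear E S k p := exists_ear hE hS hne
  obtain ⟨p, hp⟩ := Nat.find_spec hex
  set k := Nat.find hex with hk
  refine ⟨k, p, hp, ?_⟩
  intro i j hi hij hjk heq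
  have hmin : ¬ ∃ p, Ear E S (k - (j - i)) p := by
    apply Nat.find_min hex
    omega
  apply hmin
  refine ⟨fun l => if l ≤ i then p l else p (l + (j - i)), ?_⟩
  constructor
  · omega
  · simpa using hp.start
  · have e1 : ¬ (k - (j - i) + 1 ≤ i) := by omega
    simp only [e1, if_false]
    have e2 : k - (j - i) + 1 + (j - i) = k + 1 := by omega
    rw [e2]; exact hp.fin
  · intro l hl1 hl2
    by_cases h : l ≤ i
    · simp only [h, if_true]; exact hp.out l hl1 (by omega)
    · simp only [h, if_false]; exact hp.out _ (by omega) (by omega)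
  · intro l hl
    by_cases h : l ≤ i
    · by_cases h2 : l + 1 ≤ i
      · simp only [h, h2, if_true]; exact hp.arc l (by omega)
      · have e : l = i := by omega
        subst e
        simp only [le_refl, if_true, h2, if_false]
        rw [heq]
        have e3 : l + 1 + (j - l) = j + 1 := by omega
        rw [e3]
        exact hp.arc j hjk
    · have h2 : ¬ l + 1 ≤ i := by omega
      simp only [h, h2, if_false]
      have := hp.arc (l + (j - i)) (by omega)
      have e3 : l + 1 + (j - i) = l + (j - i) + 1 := by omega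
      rw [e3]; exact this
  · have e1 : ¬ (k - (j - i) + 1 ≤ i) := by omega
    have e2 : k - (j - i) + 1 + (j - i) = k + 1 := by omega
    simp only [e1, if_false, Nat.zero_le, if_true, e2]
    exact hp.opn

/-- extending a partial solution to all vertices -/
theorem extend {c : ℕ} {E : Finset (V × V)} (hE : StronglyBiconnected E) {H : Finset (V × V)}
    {S : Finset V} (hg : Good c E H S) : ∃ H, Good c E H univ := by
  classical
  have key : ∀ m : ℕ, ∀ (H : Finset (V × V)) (S : Finset V), Good c E H S →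
      Fintype.card V - S.card = m → ∃ H, Good c E H univ := by
    intro m
    induction m using Nat.strong_induction_on with
    | _ m ih =>
      intro H S hg hm
      by_cases hS : ∃ v, v ∉ S
      · obtain ⟨k, p, hp, hinj⟩ := exists_inj_ear hE hg.nonempty hS
        have hg' := add_ear (c' := c) hg hp hinj (by have := hp.pos; omega)
        have hlt : S.card < (S ∪ (Icc 1 k).image p).card := by
          apply card_lt_card
          refine ⟨subset_union_left, fun hsub => hp.out 1 (le_refl _) hp.pos (hsub ?_)⟩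
          exact mem_union_right _ (mem_image.2 ⟨1, mem_Icc.2 ⟨le_refl _, hp.pos⟩, rfl⟩)
        have hle := card_le_univ (S ∪ (Icc 1 k).image p)
        exact ih _ (by omega) _ _ hg' rfl
      · push Not at hS
        have : S = univ := by ext v; simp [hS v]
        rw [this] at hg
        exact ⟨H, hg⟩
  exact key _ H S hg rfl

theorem good_singleton (E : Finset (V × V)) (r : V) : Good 2 E ∅ {r} := by
  refine ⟨empty_subset _, singleton_nonempty r, ?_, ?_, by simp⟩
  · rintro X ⟨a, ha, haX⟩ ⟨b, hb, hbX⟩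
    rw [mem_singleton] at ha hb
    subst ha
    subst hb
    exact absurd haX hbX
  · rintro x X ⟨a, ha, _, haX⟩ ⟨b, hb, _, hbX⟩
    rw [mem_singleton] at ha hb
    subst ha
    subst hb
    exact absurd haX hbX

/-- a directed cycle of length at least three is a good start -/
theorem good_cycle {E : Finset (V × V)} {k : ℕ} {p : ℕ → V} (hk : 2 ≤ k) (hp : Ear E {p 0} k p)
    (hinj : ∀ i j, 1 ≤ i → i < j → j ≤ k → p i ≠ p j) : ∃ H S, Good 3 E H S :=
  ⟨_, _, add_ear (c' := 3) (good_singleton E (p 0)) hp hinj (by omega)⟩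

theorem exists_start (hcard : 3 ≤ Fintype.card V) {E : Finset (V × V)} (hE : StronglyBiconnected E) :
    ∃ H S, Good 3 E H S := by
  classical
  have hne : ∀ S : Finset V, S.card ≤ 2 → ∃ v, v ∉ S := by
    intro S hS
    by_contra hc
    push Not at hc
    have h1 : (univ : Finset V) ⊆ S := fun v _ => hc v
    have h2 := card_le_card h1
    rw [card_univ] at h2
    omega
  have hV : Nonempty V := Fintype.card_pos_iff.1 (by omega)
  obtain ⟨r⟩ := hV
  obtain ⟨k, p, hp, hinj⟩ := exists_inj_ear hE (singleton_nonempty r) (hne {r} (by simp))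
  have h0 : p 0 = r := by simpa using hp.start
  have hk1 : p (k + 1) = r := by simpa using hp.fin
  by_cases hk : 2 ≤ k
  · rw [← h0] at hp
    exact good_cycle hk hp hinj
  · have hk2 : k = 1 := by have := hp.pos; omega
    subst hk2
    have a1 : (r, p 1) ∈ E := by have := hp.arc 0 (by omega); rwa [h0] at this
    have a2 : (p 1, r) ∈ E := by have := hp.arc 1 (by omega); rwa [hk1] at this
    have hr1 : r ≠ p 1 := by
      have := hp.out 1 (le_refl _) (le_refl _)
      rw [mem_singleton] at this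
      exact fun h => this h.symm
    obtain ⟨m, q, hq, hqinj⟩ := exists_inj_ear hE (S := {r, p 1}) (by simp) (hne _ (card_le_two))
    have hq01 : q 0 ≠ q (m + 1) := by
      rcases hq.opn with h | h
      · exact h
      · exfalso
        have e1 : r ∈ ({q 0} : Finset V) := by rw [← h]; simp
        have e2 : p 1 ∈ ({q 0} : Finset V) := by rw [← h]; simp
        rw [mem_singleton] at e1 e2
        exact hr1 (e1.trans e2.symm)
    have hback : (q (m + 1), q 0) ∈ E := by
      have e1 := hq.start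
      have e2 := hq.fin
      rw [mem_insert, mem_singleton] at e1 e2
      rcases e1 with e1 | e1 <;> rcases e2 with e2 | e2
      · exact absurd (e1.trans e2.symm) hq01
      · rw [e1, e2]; exact a2
      · rw [e1, e2]; exact a1
      · exact absurd (e1.trans e2.symm) hq01
    let q' : ℕ → V := fun i => if i = m + 2 then q 0 else q i
    have hear : Ear E {q' 0} (m + 1) q' := by
      show Ear E {(fun i => if i = m + 2 then q 0 else q i) 0} (m + 1)
        (fun i => if i = m + 2 then q 0 else q i)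
      have e0 : (0 : ℕ) ≠ m + 2 := by omega
      constructor
      · omega
      · simp
      · simp only [e0, if_false, if_true, mem_singleton]
      · intro i hi1 hi2
        have e1 : i ≠ m + 2 := by omega
        simp only [e0, e1, if_false, mem_singleton]
        by_cases him : i = m + 1
        · rw [him]; exact hq01.symm
        · intro h
          exact hq.out i hi1 (by omega) (h ▸ hq.start)
      · intro i hi
        by_cases him : i = m + 1
        · subst him
          have e1 : m + 1 ≠ m + 2 := by omega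
          simp only [e1, if_false, if_true]
          exact hback
        · have e1 : i ≠ m + 2 := by omega
          have e2 : i + 1 ≠ m + 2 := by omega
          simp only [e1, e2, if_false]
          exact hq.arc i (by omega)
      · right; rfl
    refine good_cycle (k := m + 1) (p := q') (by have := hq.pos; omega) hear ?_
    intro i j hi hij hj
    show (if i = m + 2 then q 0 else q i) ≠ (if j = m + 2 then q 0 else q j)
    have e1 : i ≠ m + 2 := by omega
    have e2 : j ≠ m + 2 := by omega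
    simp only [e1, e2, if_false]
    by_cases hjm : j = m + 1
    · rw [hjm]
      intro h
      exact hq.out i hi (by omega) (h ▸ hq.fin)
    · exact hqinj i j hi hij (by omega)

theorem good_univ {c : ℕ} {E H : Finset (V × V)} (hl : ∀ v, (v, v) ∉ E) (hg : Good c E H univ) :
    StronglyBiconnected H := by
  constructor
  · apply sc_of_cuts
    rintro X ⟨a, ha⟩ ⟨b, hb⟩
    obtain ⟨a, _, b, _, h1, h2, h3⟩ := hg.strong X ⟨a, mem_univ _, ha⟩ ⟨b, mem_univ _, hb⟩
    exact ⟨a, b, h1, h2, h3⟩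
  · intro x
    apply bi_of_cuts (fun v hv => hl v (hg.sub hv))
    rintro X ⟨a, ha⟩ ⟨b, hb⟩
    obtain ⟨a, _, b, _, h⟩ := hg.bi x X ⟨a, mem_univ _, ha⟩ ⟨b, mem_univ _, hb⟩
    exact ⟨a, b, h⟩

theorem mono_sb {E E' : Finset (V × V)} (h : E ⊆ E') (hE : StronglyBiconnected E) :
    StronglyBiconnected E' := by
  constructor
  · intro u v
    exact ReflTransGen.mono (fun a b hab => h hab) u v (hE.1 u v)
  · intro x
    have h1 : (underlying E).induce {x}ᶜ ≤ (underlying E').induce {x}ᶜ := by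
      intro a b hab
      exact ⟨hab.1, hab.2.imp (fun h2 => h h2) (fun h2 => h h2)⟩
    exact (hE.2 x).mono h1

/-- the upper bound from a good start -/
theorem bound_of_good {c : ℕ} {E : Finset (V × V)} (hloop : ∀ v, (v, v) ∉ E)
    (hmin : MinimalStronglyBiconnected E) {H : Finset (V × V)} {S : Finset V} (hg0 : Good c E H S) :
    E.card + c ≤ 2 * Fintype.card V := by
  obtain ⟨H, hg⟩ := extend hmin.1 hg0
  have hH := good_univ hloop hg
  have hEH : E ⊆ H := by
    intro e he
    by_contra hne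
    apply hmin.2 e he
    refine mono_sb ?_ hH
    intro f hf
    rw [mem_erase]
    exact ⟨fun h => hne (h ▸ hf), hg.sub hf⟩
  have h1 := card_le_card hEH
  have h2 := hg.card
  rw [card_univ] at h2
  omega

/-! ### The extremal examples -/

/-- vertices `none`, `some none` and `m` further vertices -/
abbrev W (m : ℕ) : Type := Option (Option (Fin m))

/-- arcs `p → ℓ i → q → p` for all `i`, where `p = none` and `q = some none` -/
def ex (m : ℕ) : Finset (W m × W m) :=
  insert (some none, none) ((univ.image (fun i : Fin m => ((none : W m), (some (some i) : W m)))) ∪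
    (univ.image (fun i : Fin m => ((some (some i) : W m), (some none : W m)))))

theorem mem_ex {m : ℕ} (a b : W m) : (a, b) ∈ ex m ↔ (a = some none ∧ b = none) ∨
    (∃ i, a = none ∧ b = some (some i)) ∨ (∃ i, a = some (some i) ∧ b = some none) := by
  unfold ex
  rw [mem_insert, mem_union, mem_image, mem_image]
  constructor
  · rintro (h | ⟨i, _, h⟩ | ⟨i, _, h⟩)
    · exact Or.inl ⟨congrArg Prod.fst h, congrArg Prod.snd h⟩
    · exact Or.inr (Or.inl ⟨i, (congrArg Prod.fst h).symm, (congrArg Prod.snd h).symm⟩)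
    · exact Or.inr (Or.inr ⟨i, (congrArg Prod.fst h).symm, (congrArg Prod.snd h).symm⟩)
  · rintro (⟨h1, h2⟩ | ⟨i, h1, h2⟩ | ⟨i, h1, h2⟩)
    · exact Or.inl (by rw [h1, h2])
    · exact Or.inr (Or.inl ⟨i, mem_univ _, by rw [h1, h2]⟩)
    · exact Or.inr (Or.inr ⟨i, mem_univ _, by rw [h1, h2]⟩)

theorem card_ex (m : ℕ) : (ex m).card = 2 * m + 1 := by
  unfold ex
  rw [card_insert_of_notMem, card_union_of_disjoint, card_image_of_injective, card_image_of_injective]
  · simp; ring
  · intro i j h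
    have := congrArg Prod.fst h
    simpa using this
  · intro i j h
    have := congrArg Prod.snd h
    simpa using this
  · rw [disjoint_left]
    intro e h1 h2
    rw [mem_image] at h1 h2
    obtain ⟨i, _, rfl⟩ := h1
    obtain ⟨j, _, h⟩ := h2
    have := congrArg Prod.fst h
    simp at this
  · intro h
    rw [mem_union, mem_image, mem_image] at h
    rcases h with ⟨i, _, h⟩ | ⟨i, _, h⟩
    · have := congrArg Prod.fst h; simp at this
    · have := congrArg Prod.fst h; simp at this

theorem ex_loop {m : ℕ} : ∀ v, (v, v) ∉ ex m := by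
  intro v h
  rw [mem_ex] at h
  rcases h with ⟨h1, h2⟩ | ⟨i, h1, h2⟩ | ⟨i, h1, h2⟩ <;> rw [h1] at h2 <;> simp at h2

theorem ex_cases {m : ℕ} (v : W m) : v = none ∨ v = some none ∨ ∃ i, v = some (some i) := by
  rcases v with _ | _ | i
  · exact Or.inl rfl
  · exact Or.inr (Or.inl rfl)
  · exact Or.inr (Or.inr ⟨i, rfl⟩)

theorem ex_sb {m : ℕ} (hm : 1 ≤ m) : StronglyBiconnected (ex m) := by
  have aqp : ((some none : W m), (none : W m)) ∈ ex m := (mem_ex _ _).2 (Or.inl ⟨rfl, rfl⟩)
  have apl : ∀ i, ((none : W m), (some (some i) : W m)) ∈ ex m := fun i =>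
    (mem_ex _ _).2 (Or.inr (Or.inl ⟨i, rfl, rfl⟩))
  have alq : ∀ i, ((some (some i) : W m), (some none : W m)) ∈ ex m := fun i =>
    (mem_ex _ _).2 (Or.inr (Or.inr ⟨i, rfl, rfl⟩))
  constructor
  · apply sc_of_cuts
    rintro X ⟨a, ha⟩ ⟨b, hb⟩
    by_cases hp : (none : W m) ∈ X
    · by_cases hq : (some none : W m) ∈ X
      · rcases ex_cases b with rfl | rfl | ⟨i, rfl⟩
        · exact absurd hp hb
        · exact absurd hq hb
        · exact ⟨_, _, hp, hb, apl i⟩
      · by_cases hl : (some (some ⟨0, hm⟩) : W m) ∈ X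
        · exact ⟨_, _, hl, hq, alq _⟩
        · exact ⟨_, _, hp, hl, apl _⟩
    · by_cases hq : (some none : W m) ∈ X
      · exact ⟨_, _, hq, hp, aqp⟩
      · rcases ex_cases a with rfl | rfl | ⟨i, rfl⟩
        · exact absurd ha hp
        · exact absurd ha hq
        · exact ⟨_, _, ha, hq, alq i⟩
  · intro x
    apply bi_of_cuts ex_loop
    -- a vertex adjacent to all others
    have star : ∀ c : W m, c ≠ x → (∀ b, b ≠ x → b ≠ c → (c, b) ∈ ex m ∨ (b, c) ∈ ex m) →
        ∀ X : Set (W m), (∃ a, a ≠ x ∧ a ∈ X) → (∃ b, b ≠ x ∧ b ∉ X) →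
        ∃ a b, a ≠ x ∧ b ≠ x ∧ a ∈ X ∧ b ∉ X ∧ ((a, b) ∈ ex m ∨ (b, a) ∈ ex m) := by
      rintro c hcx hc X ⟨a, hax, ha⟩ ⟨b, hbx, hb⟩
      by_cases hcX : c ∈ X
      · exact ⟨c, b, hcx, hbx, hcX, hb, hc b hbx (fun h => hb (h ▸ hcX))⟩
      · exact ⟨a, c, hax, hcx, ha, hcX, (hc a hax (fun h => hcX (h ▸ ha))).symm⟩
    by_cases hx : x = none
    · subst hx
      apply star (some none) (by simp)
      intro b hb1 hb2
      rcases ex_cases b with rfl | rfl | ⟨i, rfl⟩
      · exact absurd rfl hb1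
      · exact absurd rfl hb2
      · exact Or.inr (alq i)
    · apply star none (fun h => hx h.symm)
      intro b _ hb2
      rcases ex_cases b with rfl | rfl | ⟨i, rfl⟩
      · exact absurd rfl hb2
      · exact Or.inr aqp
      · exact Or.inl (apl i)

theorem ex_minimal {m : ℕ} (hm : 1 ≤ m) : MinimalStronglyBiconnected (ex m) := by
  refine ⟨ex_sb hm, ?_⟩
  rintro ⟨a, b⟩ he hsb
  -- a vertex without entering arcs
  have noin : ∀ v : W m, (∀ u, (u, v) ∉ (ex m).erase (a, b)) → (∃ w, w ≠ v) → False := by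
    rintro v hv ⟨w, hw⟩
    rcases ReflTransGen.cases_tail (hsb.1 w v) with h | ⟨c, _, h⟩
    · exact hw h.symm
    · exact hv c h
  have noout : ∀ v : W m, (∀ u, (v, u) ∉ (ex m).erase (a, b)) → (∃ w, w ≠ v) → False := by
    rintro v hv ⟨w, hw⟩
    rcases ReflTransGen.cases_head (hsb.1 v w) with h | ⟨c, h, _⟩
    · exact hw h.symm
    · exact hv c h
  rw [mem_ex] at he
  rcases he with ⟨rfl, rfl⟩ | ⟨i, rfl, rfl⟩ | ⟨i, rfl, rfl⟩
  · apply noin none
    · intro u hu
      rw [mem_erase, mem_ex] at hu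
      rcases hu.2 with ⟨h1, _⟩ | ⟨i, _, h2⟩ | ⟨i, _, h2⟩
      · exact hu.1 (by rw [h1])
      · simp at h2
      · simp at h2
    · exact ⟨some none, by simp⟩
  · apply noin (some (some i))
    · intro u hu
      rw [mem_erase, mem_ex] at hu
      rcases hu.2 with ⟨_, h2⟩ | ⟨j, h1, _⟩ | ⟨j, _, h2⟩
      · simp at h2
      · exact hu.1 (by rw [h1])
      · simp at h2
    · exact ⟨none, by simp⟩
  · apply noout (some (some i))
    · intro u hu
      rw [mem_erase, mem_ex] at hu
      rcases hu.2 with ⟨h1, _⟩ | ⟨j, h1, _⟩ | ⟨j, _, h2⟩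
      · simp at h1
      · simp at h1
      · exact hu.1 (by rw [h2])
    · exact ⟨none, by simp⟩

/-- Every minimal strongly biconnected digraph on `n ≥ 3` vertices has at most `2 n - 3` arcs, and
for every `n ≥ 3` this is attained; for `n = 1, 2` it has at most `2 n - 2` arcs. So there are always
at most `2 n` arcs. -/
theorem result :
    (∀ (V : Type) [Fintype V] [DecidableEq V] (E : Finset (V × V)), (∀ v, (v, v) ∉ E) →
      MinimalStronglyBiconnected E →
        (E.card ≤ 2 * Fintype.card V) ∧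
        (1 ≤ Fintype.card V → E.card + 2 ≤ 2 * Fintype.card V) ∧
        (3 ≤ Fintype.card V → E.card + 3 ≤ 2 * Fintype.card V)) ∧
    (∀ n : ℕ, 3 ≤ n → ∃ (V : Type) (_ : Fintype V) (_ : DecidableEq V) (E : Finset (V × V)),
      Fintype.card V = n ∧ (∀ v, (v, v) ∉ E) ∧ MinimalStronglyBiconnected E ∧ E.card + 3 = 2 * n) := by
  constructor
  · intro V _ _ E hloop hmin
    have h1 : 1 ≤ Fintype.card V → E.card + 2 ≤ 2 * Fintype.card V := by
      intro h
      obtain ⟨r⟩ := Fintype.card_pos_iff.1 h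
      exact bound_of_good hloop hmin (good_singleton E r)
    refine ⟨?_, h1, ?_⟩
    · by_cases h : 1 ≤ Fintype.card V
      · have := h1 h; omega
      · have h0 : Fintype.card V = 0 := by omega
        have : IsEmpty V := Fintype.card_eq_zero_iff.1 h0
        have hE0 : E = ∅ := by
          ext ⟨a, b⟩
          exact isEmptyElim a
        simp [hE0]
    · intro h
      obtain ⟨H, S, hg⟩ := exists_start h hmin.1
      exact bound_of_good hloop hmin hg
  · intro n hn
    refine ⟨W (n - 2), inferInstance, inferInstance, ex (n - 2), ?_, ex_loop, ex_minimal (by omega), ?_⟩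
    · simp; omega
    · rw [card_ex]; omega

end Pool.Agent.Results.MP_5e4462_co.ArcBound
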